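import Pool.Agent.N391.TB.Alg

/-!
# TB/6 (helper391): derivations and the adjoint representation in coordinates
-/

set_option linter.unusedSectionVars false

open CategoryTheory AlgebraicGeometry TensorProduct

universe u

namespace Pool.Agent.N391.TB

open Module Matrix
open Pool.Agent.N202.TB
open Pool.Agent.H914 Pool.Agent.H914.VarClass Pool.Agent.H914.VarClass.Obj
  Pool.Agent.H914.WeilCohomology Pool.Agent.Y121.AHS
open Pool.Agent.Y133.Half (pw wb wb_zero wb_succ pfst psnd)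

variable {k : Type u} [Field k] {𝒱 : VarClass k} {ops : CycleOps 𝒱} {T : HodgeTheory ops}
  {ℓ : ℕ} [Fact ℓ.Prime] [Algebra T.W.K ℚ_[ℓ]] {X : 𝒱.Obj} {ι : Type} [Fintype ι] [DecidableEq ι]

/-- The basis of the cohomology of the power. -/
noncomputable def bL (e : Basis ι T.W.K (T.W.H X)) (n : ℕ) :
    Basis (Fin (n + 1) → ι) ℚ_[ℓ] (HL T.W ℚ_[ℓ] (pw X n)) :=
  bE ℚ_[ℓ] (wb e n)

lemma bL_apply (e : Basis ι T.W.K (T.W.H X)) (n : ℕ) (w : Fin (n + 1) → ι) :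
    bL (ℓ := ℓ) e n w = emL T.W ℚ_[ℓ] (wb e n w) := bE_apply _ _

/-- The basis of the cohomology. -/
noncomputable def b0 (e : Basis ι T.W.K (T.W.H X)) : Basis ι ℚ_[ℓ] (HL T.W ℚ_[ℓ] X) :=
  bE ℚ_[ℓ] e

lemma b0_apply (e : Basis ι T.W.K (T.W.H X)) (i : ι) :
    b0 (ℓ := ℓ) e i = emL T.W ℚ_[ℓ] (e i) := bE_apply _ _

/-- The external product with the last factor. -/
noncomputable def ep (T : HodgeTheory ops) (ℓ : ℕ) [Fact ℓ.Prime] [Algebra T.W.K ℚ_[ℓ]]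
    (X : 𝒱.Obj) (n : ℕ) : HL T.W ℚ_[ℓ] (pw X n) →ₗ[ℚ_[ℓ]] HL T.W ℚ_[ℓ] X →ₗ[ℚ_[ℓ]]
      HL T.W ℚ_[ℓ] (pw X (n + 1)) :=
  bil (T.W.map (pfst X n)) (T.W.map (psnd X n))

lemma ep_apply (n : ℕ) (a : HL T.W ℚ_[ℓ] (pw X n)) (b : HL T.W ℚ_[ℓ] X) :
    ep T ℓ X n a b = mulL (mapL (fst (pw X n) X) a) (mapL (snd (pw X n) X) b) := rfl

lemma wb_snoc' (e : Basis ι T.W.K (T.W.H X)) (n : ℕ) (v : Fin (n + 1) → ι) (x : ι) :
    wb e (n + 1) (Fin.snoc (α := fun _ => ι) v x) =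
      T.W.map (pfst X n) (wb e n v) * T.W.map (psnd X n) (e x) := by
  rw [wb_succ, Fin.snoc_last]
  congr 2
  congr 1
  funext i
  rw [Fin.snoc_castSucc]

lemma ep_em (e : Basis ι T.W.K (T.W.H X)) (n : ℕ) (v : Fin (n + 1) → ι) (i : ι) :
    ep T ℓ X n (emL T.W ℚ_[ℓ] (wb e n v)) (emL T.W ℚ_[ℓ] (e i)) =
      emL T.W ℚ_[ℓ] (wb e (n + 1) (Fin.snoc (α := fun _ => ι) v i)) := by
  rw [wb_snoc']
  exact bil_em _ _ _ _

/-- The operator on the power has the matrix `dp y`. -/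
def HasM (e : Basis ι T.W.K (T.W.H X)) (y : Matrix ι ι ℚ_[ℓ]) (n : ℕ)
    (D : Module.End ℚ_[ℓ] (HL T.W ℚ_[ℓ] (pw X n))) : Prop :=
  ∀ w, D (emL T.W ℚ_[ℓ] (wb e n w)) =
    ∑ u, dp (Fin (n + 1)) y u w • emL T.W ℚ_[ℓ] (wb e n u)

lemma hasM_clL {e : Basis ι T.W.K (T.W.H X)} {y : Matrix ι ι ℚ_[ℓ]} {n : ℕ}
    {D : Module.End ℚ_[ℓ] (HL T.W ℚ_[ℓ] (pw X n))} (h : HasM e y n D)
    (a : (Fin (n + 1) → ι) → ℚ_[ℓ]) :
    D (clL e n a) = clL e n (dp (Fin (n + 1)) y *ᵥ a) := by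
  unfold clL
  rw [map_sum]
  simp only [map_smul, h _, Finset.smul_sum, smul_smul]
  rw [Finset.sum_comm]
  refine Finset.sum_congr rfl fun u _ => ?_
  rw [← Finset.sum_smul]
  congr 1
  refine Finset.sum_congr rfl fun w _ => ?_
  exact mul_comm _ _

/-- the product rule on words -/
lemma rule (E : Realization T ℓ) {e : Basis ι T.W.K (T.W.H X)} {x : Op E X}
    {y : Matrix ι ι ℚ_[ℓ]} (hxy : HasMat E e x y) {n : ℕ}
    {D : Module.End ℚ_[ℓ] (HL T.W ℚ_[ℓ] (pw X n))} (hD : HasM e y n D) (v : Fin (n + 1) → ι)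
    (i : ι) :
    ep T ℓ X n (D (emL T.W ℚ_[ℓ] (wb e n v))) (emL T.W ℚ_[ℓ] (e i)) +
      ep T ℓ X n (emL T.W ℚ_[ℓ] (wb e n v)) (x (emL T.W ℚ_[ℓ] (e i))) =
    ∑ u, dp (Fin (n + 1 + 1)) y u (Fin.snoc (α := fun _ => ι) v i) •
      emL T.W ℚ_[ℓ] (wb e (n + 1) u) := by
  rw [sum_dp, hD v, hxy i, map_sum, map_sum, LinearMap.sum_apply]
  congr 1
  · refine Finset.sum_congr rfl fun u _ => ?_
    rw [map_smul, LinearMap.smul_apply, ep_em]
  · refine Finset.sum_congr rfl fun s _ => ?_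
    rw [map_smul, ep_em]

lemma hasM_zero (E : Realization T ℓ) {e : Basis ι T.W.K (T.W.H X)} {x : Op E X}
    {y : Matrix ι ι ℚ_[ℓ]} (hxy : HasMat E e x y) : HasM (T := T) (X := X) e y 0 x := by
  intro w
  have h1 : (wb e 0 w : T.W.H X) = e (w 0) := wb_zero e w
  have h2 : ∀ u : Fin 1 → ι, (wb e 0 u : T.W.H X) = e (u 0) := fun u => wb_zero e u
  have h3 := hxy (w 0)
  rw [← h1] at h3
  refine h3.trans ?_
  rw [← Equiv.sum_comp (Equiv.funUnique (Fin 1) ι)]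
  refine Finset.sum_congr rfl fun u _ => ?_
  rw [dp_one]
  have h4 : e ((Equiv.funUnique (Fin 1) ι) u) = (wb e 0 u : T.W.H X) := (h2 u).symm
  rw [h4]
  rfl

variable (T ℓ X) in
theorem der_ : S_DER T ℓ X := by
  intro E ι _ _ e x y hxy
  constructor
  · -- existence
    set D : ∀ n, Op E (pw X n) := fun n => Matrix.toLin (bL e n) (bL e n) (dp (Fin (n + 1)) y)
      with hDdef
    have hD : ∀ n, HasM e y n (D n) := by
      intro n w
      have h := Matrix.toLin_self (bL (ℓ := ℓ) e n) (bL (ℓ := ℓ) e n) (dp (Fin (n + 1)) y) w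
      simp only [bL_apply] at h
      exact h
    refine ⟨D, ?_, ?_⟩
    · refine (bL (ℓ := ℓ) e 0).ext fun w => ?_
      rw [bL_apply]
      exact (hD 0 w).trans (hasM_zero E hxy w).symm
    · intro n
      have hb : (ep T ℓ X n).compr₂ (D (n + 1)) =
          (ep T ℓ X n).comp (D n) + (ep T ℓ X n).compl₂ x := by
        refine (bL (ℓ := ℓ) e n).ext fun v => (b0 (ℓ := ℓ) e).ext fun i => ?_
        rw [bL_apply, b0_apply, LinearMap.compr₂_apply, ep_em, hD (n + 1)]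
        exact (rule E hxy (hD n) v i).symm
      intro a b
      have h := LinearMap.congr_fun (LinearMap.congr_fun hb a) b
      exact h
  · -- uniqueness
    intro D hDer n
    have hD : ∀ n, HasM e y n (D n) := by
      intro n
      induction n with
      | zero =>
        rw [hDer.1]
        exact hasM_zero E hxy
      | succ n ih =>
        intro w
        have hw : w = Fin.snoc (α := fun _ => ι) (fun i => w i.castSucc) (w (Fin.last _)) :=
          (Fin.snoc_init_self w).symm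
        rw [hw, ← ep_em]
        exact (hDer.2 n _ _).trans (rule E hxy ih _ _)
    exact hasM_clL (hD n)

variable (T ℓ X) in
theorem adss_ : S_ADSS T ℓ X := by
  intro E ι _ _ e G h1 hm hρ hss Δ hΔ S hS
  let ρ : E.Γ → HL T.W ℚ_[ℓ] X →ₗ[ℚ_[ℓ]] HL T.W ℚ_[ℓ] X := fun g =>
    { toFun := fun x => (E.R X).ρ g x
      map_add' := fun x y => (E.R X).add g x y
      map_smul' := fun l x => (E.R X).smul g l x }
  refine ad (b0 (ℓ := ℓ) e) ρ G h1 hm ?_ Δ ?_ S hS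
  · intro g j
    simp only [b0_apply]
    exact hρ g j
  · intro S' hS'
    exact hss Δ hΔ S' hS'

end Pool.Agent.N391.TB
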