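import Pool.Agent.N202.TB.Stm2

/-!
# TB/6 (helper391): the algebra behind the derivations and the adjoint representation
-/

set_option linter.unusedSectionVars false

namespace Pool.Agent.N391.TB

open Module Matrix TensorProduct
open Pool.Agent.N202.TB Pool.Agent.Y121.AHS

/-! ### The derivation on words -/

section dp

variable {ι : Type} [Fintype ι] [DecidableEq ι] {R : Type*} [CommRing R]

lemma dp_apply (κ : Type) [Fintype κ] [DecidableEq κ] (y : Matrix ι ι R) (v w : κ → ι) :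
    dp κ y v w = ∑ k, y (v k) (w k) * ∏ j, (if j = k then 1 else if v j = w j then 1 else 0) := by
  refine Finset.sum_congr rfl fun k _ => ?_
  congr 1
  rw [← Finset.mul_prod_erase Finset.univ _ (Finset.mem_univ k), if_pos rfl, one_mul]
  refine Finset.prod_congr rfl fun j hj => ?_
  rw [if_neg (Finset.ne_of_mem_erase hj)]

lemma prod_ite (n : ℕ) (v w : Fin n → ι) :
    (∏ j, (if v j = w j then (1 : R) else 0)) = if v = w then 1 else 0 := by
  by_cases h : v = w
  · subst h
    simp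
  · rw [if_neg h]
    obtain ⟨j, hj⟩ := Function.ne_iff.1 h
    exact Finset.prod_eq_zero (Finset.mem_univ j) (if_neg hj)

lemma dp_snoc (n : ℕ) (y : Matrix ι ι R) (u v : Fin (n + 1) → ι) (s i : ι) :
    dp (Fin (n + 1 + 1)) y (Fin.snoc (α := fun _ => ι) u s) (Fin.snoc (α := fun _ => ι) v i) =
      dp (Fin (n + 1)) y u v * (if s = i then 1 else 0) + (if u = v then 1 else 0) * y s i := by
  rw [dp_apply, dp_apply, Fin.sum_univ_castSucc, Finset.sum_mul]
  congr 1
  · refine Finset.sum_congr rfl fun k _ => ?_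
    rw [Fin.prod_univ_castSucc, Fin.snoc_castSucc, Fin.snoc_castSucc, Fin.snoc_last,
      Fin.snoc_last, if_neg (Fin.castSucc_lt_last k).ne', mul_assoc]
    congr 2
    refine Finset.prod_congr rfl fun j _ => ?_
    rw [Fin.snoc_castSucc, Fin.snoc_castSucc]
    simp only [Fin.castSucc_inj]
  · rw [Fin.prod_univ_castSucc, Fin.snoc_last, Fin.snoc_last, if_pos rfl, mul_one, mul_comm,
      ← prod_ite]
    congr 1
    refine Finset.prod_congr rfl fun j _ => ?_
    rw [Fin.snoc_castSucc, Fin.snoc_castSucc, if_neg (Fin.castSucc_lt_last j).ne]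

lemma dp_one (y : Matrix ι ι R) (v w : Fin 1 → ι) : dp (Fin 1) y v w = y (v 0) (w 0) := by
  rw [dp_apply, Fintype.sum_unique]
  simp

lemma sum_snoc' {M : Type*} [AddCommMonoid M] (n : ℕ) (f : (Fin (n + 1 + 1) → ι) → M) :
    ∑ w, f w = ∑ v : Fin (n + 1) → ι, ∑ x : ι, f (Fin.snoc (α := fun _ => ι) v x) := by
  rw [← Equiv.sum_comp (Fin.snocEquiv fun _ => ι), Fintype.sum_prod_type, Finset.sum_comm]
  rfl

lemma sum_dp {M : Type*} [AddCommGroup M] [Module R M] (n : ℕ) (y : Matrix ι ι R)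
    (v : Fin (n + 1) → ι) (i : ι) (B : (Fin (n + 1 + 1) → ι) → M) :
    ∑ u, dp (Fin (n + 1 + 1)) y u (Fin.snoc (α := fun _ => ι) v i) • B u =
      ∑ u, dp (Fin (n + 1)) y u v • B (Fin.snoc (α := fun _ => ι) u i) +
        ∑ s, y s i • B (Fin.snoc (α := fun _ => ι) v s) := by
  rw [sum_snoc']
  simp only [dp_snoc, add_smul, Finset.sum_add_distrib]
  congr 1
  · refine Finset.sum_congr rfl fun u _ => ?_
    rw [Finset.sum_eq_single i]
    · rw [if_pos rfl, mul_one]
    · intro s _ hs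
      rw [if_neg hs, mul_zero, zero_smul]
    · intro h
      exact absurd (Finset.mem_univ i) h
  · rw [Finset.sum_eq_single v]
    · simp
    · intro u _ hu
      refine Finset.sum_eq_zero fun s _ => ?_
      rw [if_neg hu, zero_mul, zero_smul]
    · intro h
      exact absurd (Finset.mem_univ v) h

end dp

/-! ### Extension of the coefficients -/

section ext

variable {K L A B C : Type} [Field K] [Field L] [Algebra K L] [Ring A] [Algebra K A] [Ring B]
  [Algebra K B] [Ring C] [Algebra K C]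

/-- The basis of the extension. -/
noncomputable def bE {κ : Type} (L : Type) [Field L] [Algebra K L] (b : Basis κ K A) :
    Basis κ L (Ext K L A) :=
  (b.baseChange L : Basis κ L (L ⊗[K] A))

lemma bE_apply {κ : Type} (b : Basis κ K A) (i : κ) : bE L b i = extEm K L (b i) :=
  Basis.baseChange_apply L b i

/-- The external product. -/
noncomputable def bil (f : B →ₐ[K] A) (g : C →ₐ[K] A) :
    Ext K L B →ₗ[L] Ext K L C →ₗ[L] Ext K L A :=
  (((LinearMap.mul L (L ⊗[K] A)).compl₁₂ (f.toLinearMap.baseChange L)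
    (g.toLinearMap.baseChange L)) : (L ⊗[K] B) →ₗ[L] (L ⊗[K] C) →ₗ[L] (L ⊗[K] A))

lemma bil_apply (f : B →ₐ[K] A) (g : C →ₐ[K] A) (x : Ext K L B) (y : Ext K L C) :
    bil f g x y = extMul K L (extHom K L f x) (extHom K L g y) := rfl

lemma bil_em (f : B →ₐ[K] A) (g : C →ₐ[K] A) (b : B) (c : C) :
    bil f g (extEm K L b) (extEm K L c) = extEm K L (f b * g c) := by
  change (f.toLinearMap.baseChange L ((1 : L) ⊗ₜ[K] b)) *
    (g.toLinearMap.baseChange L ((1 : L) ⊗ₜ[K] c)) = (1 : L) ⊗ₜ[K] (f b * g c)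
  rw [LinearMap.baseChange_tmul, LinearMap.baseChange_tmul, Algebra.TensorProduct.tmul_mul_tmul,
    one_mul]
  rfl

end ext

/-! ### The adjoint representation -/

section ad

variable {ι : Type} [Fintype ι] [DecidableEq ι] {L : Type} [Field L] {V : Type} [AddCommGroup V]
  [Module L V]

theorem ad (b : Basis ι L V) {Γ : Type} [Group Γ] (ρ : Γ → V →ₗ[L] V) (G : Γ → Matrix ι ι L)
    (h1 : G 1 = 1) (hm : ∀ g h, G (g * h) = G g * G h)
    (hρ : ∀ g j, ρ g (b j) = ∑ i, G g i j • b i) (Δ : Subgroup Γ)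
    (hs : ∀ S : Submodule L (Module.End L V),
      (∀ g ∈ Δ, ∀ s ∈ S, ∀ s' : Module.End L V, (∀ x, s' (ρ g x) = ρ g (s x)) → s' ∈ S) →
      ∃ S' : Submodule L (Module.End L V),
        (∀ g ∈ Δ, ∀ s ∈ S', ∀ s' : Module.End L V, (∀ x, s' (ρ g x) = ρ g (s x)) → s' ∈ S') ∧
        IsCompl S S')
    (S : Submodule L (Matrix ι ι L)) (hS : ∀ g ∈ Δ, ∀ x ∈ S, G g * x * G g⁻¹ ∈ S) :
    ∃ S' : Submodule L (Matrix ι ι L), (∀ g ∈ Δ, ∀ x ∈ S', G g * x * G g⁻¹ ∈ S') ∧
      IsCompl S S' := by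
  set τ : Module.End L V ≃ₗ[L] Matrix ι ι L := LinearMap.toMatrix b b with hτ
  have hinv : ∀ g, G g * G g⁻¹ = 1 := fun g => by rw [← hm, mul_inv_cancel, h1]
  have hinv' : ∀ g, G g⁻¹ * G g = 1 := fun g => by rw [← hm, inv_mul_cancel, h1]
  have hρm : ∀ g, LinearMap.toMatrix b b (ρ g) = G g := by
    intro g
    ext i j
    rw [LinearMap.toMatrix_apply, hρ, map_sum, Finsupp.finsetSum_apply]
    simp [Finsupp.single_apply]
  have key : ∀ (g : Γ) (s s' : Module.End L V), (∀ x, s' (ρ g x) = ρ g (s x)) ↔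
      τ s' = G g * τ s * G g⁻¹ := by
    intro g s s'
    have e1 : (∀ x, s' (ρ g x) = ρ g (s x)) ↔ s' ∘ₗ ρ g = ρ g ∘ₗ s := by
      rw [LinearMap.ext_iff]
      rfl
    have e2 : (s' ∘ₗ ρ g = ρ g ∘ₗ s) ↔ τ s' * G g = G g * τ s := by
      rw [← τ.injective.eq_iff, hτ, LinearMap.toMatrix_comp b b b, LinearMap.toMatrix_comp b b b,
        hρm]
    rw [e1, e2]
    constructor
    · intro h
      rw [← h, Matrix.mul_assoc, hinv, Matrix.mul_one]
    · intro h
      rw [h, Matrix.mul_assoc, hinv', Matrix.mul_one]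
  obtain ⟨S₁, h2, h3⟩ := hs (S.comap (τ : Module.End L V →ₗ[L] Matrix ι ι L)) (by
    intro g hg s hs' s' h
    rw [Submodule.mem_comap] at hs' ⊢
    have := (key g s s').1 h
    change τ s' ∈ S
    rw [this]
    exact hS g hg _ hs')
  refine ⟨S₁.map (τ : Module.End L V →ₗ[L] Matrix ι ι L), ?_, ?_⟩
  · rintro g hg _ ⟨s, hs', rfl⟩
    refine ⟨τ.symm (G g * τ s * G g⁻¹), h2 g hg s hs' _ ((key g s _).2 ?_), ?_⟩
    · rw [LinearEquiv.apply_symm_apply]
    · change τ (τ.symm (G g * τ s * G g⁻¹)) = _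
      rw [LinearEquiv.apply_symm_apply]
      rfl
  · have h4 := (Submodule.orderIsoMapComap τ).isCompl h3
    have e : (Submodule.orderIsoMapComap τ) (S.comap (τ : Module.End L V →ₗ[L] Matrix ι ι L)) =
        S := by
      change Submodule.map _ (Submodule.comap _ S) = S
      exact Submodule.map_comap_eq_of_surjective τ.surjective S
    rw [e] at h4
    exact h4

end ad

end Pool.Agent.N391.TB
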